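import Pool.Agent.LibKB2.B01

/-! Residues of sections along a prime divisor. -/

set_option autoImplicit false

open Pool.Agent.LibGMM Pool.Agent.LibK Pool.Agent.LibKB

namespace Pool.Agent.LibKB2

variable {L : Type} [Field L] [Algebra ℂ L] {κ : Type} [Field κ] [Algebra ℂ κ]

/-- The residues of the sections of `D` along `ν`. -/
def resV (P : Set (DVal L)) {ν : DVal L} (ρ : ν.ring →ₐ[ℂ] κ) (D : DVal L → ℤ) :
    Submodule ℂ κ :=
  ((sec P D).comap ν.ring.val.toLinearMap).map ρ.toLinearMap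

theorem mem_resV {P : Set (DVal L)} {ν : DVal L} {ρ : ν.ring →ₐ[ℂ] κ} {D : DVal L → ℤ} {x : κ} :
    x ∈ resV P ρ D ↔ ∃ f : ν.ring, (f : L) ∈ sec P D ∧ ρ f = x := by
  simp [resV, Submodule.mem_map]

/-- A section `f ≠ 0` of `D` with `D ν = 0` has `0 ≤ ν.ord f`. -/
theorem mem_ring_of_mem_sec {P : Set (DVal L)} {ν : DVal L} (hν : ν ∈ P) {D : DVal L → ℤ}
    (hD : D ν = 0) {f : L} (hf : f ∈ sec P D) : f ∈ ν.ring := by
  by_cases h0 : f = 0
  · rw [h0]
    exact zero_mem _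
  · have h1 := hf ν hν h0
    rw [hD, add_zero] at h1
    exact h1

/-- PROOF. The restriction of `ρ` to `(sec P D).comap val` (isomorphic to `sec P D` by
`mem_ring_of_mem_sec`) has range `resV P ρ D` and kernel (by `hρ`) `sec P (D - dlt ν)`:
`ν.ord f ≥ 1`; rank-nullity. -/
theorem finrank_resV {P : Set (DVal L)} {ν : DVal L} (hν : ν ∈ P) {ρ : ν.ring →ₐ[ℂ] κ}
    (hρ : ∀ x : ν.ring, ρ x = 0 ↔ ((x : L) = 0 ∨ 0 < ν.ord x)) {D : DVal L → ℤ} (hD : D ν = 0)
    [Module.Finite ℂ (sec P D)] :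
    Module.Finite ℂ (resV P ρ D) ∧
      (Module.finrank ℂ (resV P ρ D) : ℤ) = (h0 P D : ℤ) - h0 P (D - dlt ν) := by
  -- the residue map on the space of sections
  let φ : sec P D →ₗ[ℂ] κ :=
    { toFun := fun f => ρ ⟨(f : L), mem_ring_of_mem_sec hν hD f.2⟩
      map_add' := fun f g => by
        rw [← map_add]
        rfl
      map_smul' := fun c f => by
        rw [RingHom.id_apply, ← map_smul]
        rfl }
  have hφ : ∀ f : sec P D, φ f = ρ ⟨(f : L), mem_ring_of_mem_sec hν hD f.2⟩ := fun _ => rfl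
  have hrange : LinearMap.range φ = resV P ρ D := by
    ext x
    rw [LinearMap.mem_range, mem_resV]
    constructor
    · rintro ⟨f, rfl⟩
      exact ⟨⟨(f : L), mem_ring_of_mem_sec hν hD f.2⟩, f.2, rfl⟩
    · rintro ⟨f, hf, rfl⟩
      exact ⟨⟨(f : L), hf⟩, rfl⟩
  have hle : sec P (D - dlt ν) ≤ sec P D := by
    intro f hf μ hμ h0
    have h1 := hf μ hμ h0
    rw [Pi.sub_apply] at h1
    by_cases hμν : μ = ν
    · subst hμν
      rw [dlt_self] at h1
      omega
    · rw [dlt_ne hμν, sub_zero] at h1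
      exact h1
  have hker : LinearMap.ker φ = (sec P (D - dlt ν)).comap (sec P D).subtype := by
    ext f
    rw [LinearMap.mem_ker, hφ, hρ, Submodule.mem_comap, Submodule.subtype_apply]
    constructor
    · intro h μ hμ h0
      have h1 := f.2 μ hμ h0
      rw [Pi.sub_apply]
      by_cases hμν : μ = ν
      · subst hμν
        rw [dlt_self, hD]
        have h2 := h.resolve_left h0
        have h3 : 0 < μ.ord (f : L) := h2
        omega
      · rw [dlt_ne hμν, sub_zero]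
        exact h1
    · intro h
      by_cases h0 : (f : L) = 0
      · exact Or.inl h0
      · right
        have h1 := h ν hν h0
        rw [Pi.sub_apply, dlt_self, hD] at h1
        show 0 < ν.ord (f : L)
        omega
  have hfin : Module.Finite ℂ (LinearMap.range φ) := Module.Finite.range φ
  have hrn := LinearMap.finrank_range_add_finrank_ker φ
  have hk : Module.finrank ℂ (LinearMap.ker φ) = h0 P (D - dlt ν) := by
    rw [hker]
    exact (Submodule.comapSubtypeEquivOfLe hle).finrank_eq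
  rw [← hrange]
  refine ⟨hfin, ?_⟩
  have h2 : h0 P D = Module.finrank ℂ (sec P D) := rfl
  rw [hk] at hrn
  rw [h2, ← hrn]
  push_cast
  ring

theorem resV_mul {P : Set (DVal L)} {ν : DVal L} {ρ : ν.ring →ₐ[ℂ] κ} {D E : DVal L → ℤ} {a b : κ}
    (ha : a ∈ resV P ρ D) (hb : b ∈ resV P ρ E) : a * b ∈ resV P ρ (D + E) := by
  rw [mem_resV] at ha hb ⊢
  obtain ⟨f, hf, rfl⟩ := ha
  obtain ⟨g, hg, rfl⟩ := hb
  refine ⟨f * g, ?_, map_mul ρ f g⟩
  intro μ hμ h0
  have h1 : (f : L) * (g : L) ≠ 0 := h0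
  have hf0 : (f : L) ≠ 0 := left_ne_zero_of_mul h1
  have hg0 : (g : L) ≠ 0 := right_ne_zero_of_mul h1
  have h2 := hf μ hμ hf0
  have h3 := hg μ hμ hg0
  show 0 ≤ μ.ord ((f : L) * (g : L)) + (D μ + E μ)
  rw [μ.ord_mul _ _ hf0 hg0]
  omega

theorem one_mem_resV {P : Set (DVal L)} {ν : DVal L} {ρ : ν.ring →ₐ[ℂ] κ} :
    (1 : κ) ∈ resV P ρ 0 := by
  rw [mem_resV]
  refine ⟨1, ?_, map_one ρ⟩
  intro μ _ _
  show 0 ≤ μ.ord (1 : L) + 0
  have h1 := μ.ord_const 1
  rw [map_one] at h1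
  rw [h1, add_zero]

end Pool.Agent.LibKB2
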