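import Pool.Agent.LibKB2.B05
import Pool.Agent.LibGMM.Api

/-! Base point freeness at all valuation rings of a curve. -/

set_option autoImplicit false

open Pool.Agent.LibGMM Pool.Agent.LibK Pool.Agent.LibKB

namespace Pool.Agent.LibKB2

variable {L : Type} [Field L] [Algebra ℂ L] {κ : Type} [Field κ] [Algebra ℂ κ]

/-- Composition of valuations.

PROOF. Check the axioms; `mem_or_inv_mem'`: `ord f > 0` or `f = 0`: `ρ f = 0`; `ord f = 0`: use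
`W.mem_or_inv_mem (ρ f)`, `ρ f⁻¹ = (ρ f)⁻¹`; `ord f < 0`: `f⁻¹`. -/
theorem exists_compVal {ν : DVal L} (ρ : ν.ring →ₐ[ℂ] κ)
    (hρ : ∀ x : ν.ring, ρ x = 0 ↔ ((x : L) = 0 ∨ 0 < ν.ord x)) (W : ValuationSubring κ) :
    ∃ V : ValuationSubring L, ∀ f : L, f ∈ V ↔ ∃ h : f ∈ ν.ring, ρ ⟨f, h⟩ ∈ W := by
  have hpos : ∀ f : L, 0 < ν.ord f → ∃ h : f ∈ ν.ring, ρ ⟨f, h⟩ ∈ W := by
    intro f hf
    refine ⟨hf.le, ?_⟩
    have h1 : ρ ⟨f, hf.le⟩ = 0 := (hρ _).2 (Or.inr hf)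
    rw [h1]
    exact W.zero_mem
  refine ⟨{
    carrier := {f | ∃ h : f ∈ ν.ring, ρ ⟨f, h⟩ ∈ W}
    mul_mem' := ?_
    one_mem' := ?_
    add_mem' := ?_
    zero_mem' := ?_
    neg_mem' := ?_
    mem_or_inv_mem' := ?_ }, fun f => Iff.rfl⟩
  · rintro a b ⟨ha, ha'⟩ ⟨hb, hb'⟩
    refine ⟨mul_mem ha hb, ?_⟩
    have h1 : (⟨a * b, mul_mem ha hb⟩ : ν.ring) = ⟨a, ha⟩ * ⟨b, hb⟩ := rfl
    rw [h1, map_mul]
    exact W.mul_mem _ _ ha' hb'
  · refine ⟨one_mem _, ?_⟩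
    have h1 : (⟨1, one_mem _⟩ : ν.ring) = 1 := rfl
    rw [h1, map_one]
    exact W.one_mem
  · rintro a b ⟨ha, ha'⟩ ⟨hb, hb'⟩
    refine ⟨add_mem ha hb, ?_⟩
    have h1 : (⟨a + b, add_mem ha hb⟩ : ν.ring) = ⟨a, ha⟩ + ⟨b, hb⟩ := rfl
    rw [h1, map_add]
    exact W.add_mem _ _ ha' hb'
  · refine ⟨zero_mem _, ?_⟩
    have h1 : (⟨0, zero_mem _⟩ : ν.ring) = 0 := rfl
    rw [h1, map_zero]
    exact W.zero_mem
  · rintro a ⟨ha, ha'⟩
    refine ⟨neg_mem ha, ?_⟩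
    have h1 : (⟨-a, neg_mem ha⟩ : ν.ring) = -⟨a, ha⟩ := rfl
    rw [h1, map_neg]
    exact W.neg_mem _ ha'
  · intro f
    rcases lt_trichotomy (ν.ord f) 0 with h | h | h
    · right
      apply hpos
      rw [ν.ord_inv]
      omega
    · by_cases hf0 : f = 0
      · left
        subst hf0
        refine ⟨zero_mem _, ?_⟩
        have h1 : (⟨0, zero_mem _⟩ : ν.ring) = 0 := rfl
        rw [h1, map_zero]
        exact W.zero_mem
      have h1 : f ∈ ν.ring := h.ge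
      have h2 : f⁻¹ ∈ ν.ring := by
        change 0 ≤ ν.ord f⁻¹
        rw [ν.ord_inv]
        omega
      have h3 : ρ ⟨f⁻¹, h2⟩ = (ρ ⟨f, h1⟩)⁻¹ := by
        have h4 : (⟨f⁻¹, h2⟩ : ν.ring) * ⟨f, h1⟩ = 1 := by
          apply Subtype.ext
          change f⁻¹ * f = 1
          exact inv_mul_cancel₀ hf0
        have h5 : ρ ⟨f⁻¹, h2⟩ * ρ ⟨f, h1⟩ = 1 := by
          rw [← map_mul, h4, map_one]
        exact eq_inv_of_mul_eq_one_left h5
      rcases W.mem_or_inv_mem (ρ ⟨f, h1⟩) with h4 | h4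
      · exact Or.inl ⟨h1, h4⟩
      · right
        refine ⟨h2, ?_⟩
        rw [h3]
        exact h4
    · exact Or.inl (hpos f h)

/-- PROOF. Let `V` be from `exists_compVal`; it contains the constants and `V ≠ ⊤` (`t⁻¹ ∉ V` if
`ν.ord t = 1`). `S.centre V`: (ii) `V` is the ring of a prime `μ`: then `W = ⊤`, i.e. all `w ∈ W`:
`w = ρ f`; if `w ∉ W` then `f ∉ V`, so `μ.ord f < 0`; for `t` with `ν.ord t = 1` and all `n`:
`ρ (f ^ n * t) = 0 ∈ W`, so `0 ≤ μ.ord (f ^ n * t) = n μ.ord f + μ.ord t`, contradiction. Take `g = u`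
from `exists_nonconst`. (i) `x ∈ S.pts`, `VDom x V`; let `x' ≠ x` be another point (`S.infPts`) and
`f` with `Gen x f` from `S.sep (B S.A)` (for `x'`, `x`). `x ≤ ν.ring` (as `V ⊆ ν.ring`), so
`ν.ord f = 0` and `g = ρ f ≠ 0`. If `s = ρ t`, `t ∈ sec (B (n • S.A))`, then `t / f ^ n ∈ x`
(`Coord.mem_iff`, `S.ess`: `μ.ord t + n (B S.A μ) ≥ 0`, `μ.ord f = - B S.A μ`), so
`t / f ^ n ∈ V` and `s / g ^ n = ρ (t / f ^ n) ∈ W`. -/
theorem exists_bpf (S : PreSurf L) {ν : DVal L} (hν : ν ∈ S.prm)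
    (B : (Fin (S.n + 1) → ℤ) →+ (DVal L → ℤ)) (hB1 : ∀ α, IsDiv S.prm (B α))
    (hB2 : ∀ α, clOf S.prm S.cls (B α) = α) (hB3 : ∀ α, B α ν = 0) (ρ : ν.ring →ₐ[ℂ] κ)
    (hρs : Function.Surjective ρ)
    (hρ : ∀ x : ν.ring, ρ x = 0 ↔ ((x : L) = 0 ∨ 0 < ν.ord x)) (W : ValuationSubring κ)
    (hW : Const W) : ∃ g ∈ resV S.prm ρ (B S.A), g ≠ 0 ∧
      ∀ (n : ℕ), ∀ s ∈ resV S.prm ρ (B (n • S.A)), s / g ^ n ∈ W := by
  obtain ⟨V, hV⟩ := exists_compVal ρ hρ W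
  obtain ⟨t, ht⟩ := ν.exists_ord_one
  have ht0 : t ≠ 0 := by
    rintro rfl
    rw [ν.ord_zero] at ht
    exact zero_ne_one ht
  have hc : ∀ c : ℂ, algebraMap ℂ L c ∈ V := by
    intro c
    rw [hV]
    refine ⟨ν.ring.algebraMap_mem c, ?_⟩
    have h1 : (⟨algebraMap ℂ L c, ν.ring.algebraMap_mem c⟩ : ν.ring) =
        algebraMap ℂ ν.ring c := rfl
    rw [h1, AlgHom.commutes]
    exact hW c
  have hne : V ≠ ⊤ := by
    intro h
    have h1 : t⁻¹ ∈ V := by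
      rw [h]
      exact ValuationSubring.mem_top _
    obtain ⟨h2, _⟩ := (hV _).1 h1
    have h3 : 0 ≤ ν.ord t⁻¹ := h2
    rw [ν.ord_inv, ht] at h3
    norm_num at h3
  rcases S.centre V hc hne with ⟨x, hx, hdom⟩ | ⟨μ, hμ, hμV⟩
  · obtain ⟨x', ⟨hx', _⟩, hne'⟩ := ((S.infPts ν hν).nontrivial).exists_ne x
    obtain ⟨f, ⟨hf1, hf0, hf2⟩, _⟩ := S.sep (B S.A) (hB1 _) (hB2 _) x' hx' x hx hne'
    have hxν : x ≤ ν.ring := by
      intro z hz
      exact ((hV z).1 (hdom.1 z hz)).1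
    have hfν : ν.ord f = 0 := by
      have h1 := hf2 ν hν hxν
      rw [hB3, add_zero] at h1
      exact h1
    have hfr : f ∈ ν.ring := hfν.ge
    have hg0 : ρ ⟨f, hfr⟩ ≠ 0 := by
      intro h1
      rcases (hρ _).1 h1 with h2 | h2
      · exact hf0 h2
      · exact absurd hfν (ne_of_gt h2)
    refine ⟨ρ ⟨f, hfr⟩, mem_resV.2 ⟨⟨f, hfr⟩, hf1, rfl⟩, hg0, ?_⟩
    intro n s hs
    obtain ⟨⟨u, hur⟩, hu, rfl⟩ := mem_resV.1 hs
    have hux : u / f ^ n ∈ x := by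
      obtain ⟨a, b, hab⟩ := S.coord x hx
      rw [hab.mem_iff]
      intro μ hμ
      obtain ⟨hμ1, hμ2⟩ := (S.ess x hx μ).1 hμ
      by_cases hu0 : u = 0
      · rw [hu0, zero_div, μ.ord_zero]
      have h1 := hu μ hμ1 hu0
      have h2 := hf2 μ hμ1 hμ2
      have h3 : B (n • S.A) μ = n * B S.A μ := by
        rw [map_nsmul, Pi.smul_apply, nsmul_eq_mul]
      rw [h3] at h1
      rw [μ.ord_div hu0 (pow_ne_zero _ hf0), μ.ord_pow]
      have h4 : μ.ord f = - B S.A μ := by omega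
      have h5 : μ.ord u + (n : ℤ) * B S.A μ = μ.ord u - (n : ℤ) * μ.ord f := by
        rw [h4]
        ring
      have h6 : 0 ≤ μ.ord u + (n : ℤ) * B S.A μ := h1
      omega
    obtain ⟨h1, h2⟩ := (hV _).1 (hdom.1 _ hux)
    have h3 : ρ ⟨u / f ^ n, h1⟩ * ρ ⟨f, hfr⟩ ^ n = ρ ⟨u, hur⟩ := by
      rw [← map_pow, ← map_mul]
      congr 1
      apply Subtype.ext
      change u / f ^ n * f ^ n = u
      exact div_mul_cancel₀ _ (pow_ne_zero _ hf0)
    rw [← h3, mul_div_assoc, div_self (pow_ne_zero _ hg0), mul_one]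
    exact h2
  · have htop : ∀ w : κ, w ∈ W := by
      intro w
      obtain ⟨⟨f, hf⟩, rfl⟩ := hρs w
      by_contra hw
      have hfV : f ∉ V := by
        rw [hV]
        rintro ⟨_, h2⟩
        exact hw h2
      rw [hμV] at hfV
      push Not at hfV
      have hf0 : f ≠ 0 := by
        rintro rfl
        rw [μ.ord_zero] at hfV
        exact lt_irrefl _ hfV
      have htr : t ∈ ν.ring := by
        change 0 ≤ ν.ord t
        rw [ht]
        norm_num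
      have h1 : ∀ n : ℕ, 0 ≤ (n : ℤ) * μ.ord f + μ.ord t := by
        intro n
        have h2 : f ^ n * t ∈ V := by
          rw [hV]
          refine ⟨mul_mem (_root_.pow_mem hf n) htr, ?_⟩
          have h3 : (⟨f ^ n * t, mul_mem (_root_.pow_mem hf n) htr⟩ : ν.ring) =
              ⟨f, hf⟩ ^ n * ⟨t, htr⟩ := rfl
          have h4 : ρ ⟨t, htr⟩ = 0 := (hρ _).2 (Or.inr (by
            change 0 < ν.ord t
            rw [ht]
            norm_num))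
          rw [h3, map_mul, h4, mul_zero]
          exact W.zero_mem
        rw [hμV, μ.ord_mul _ _ (pow_ne_zero _ hf0) ht0, μ.ord_pow] at h2
        exact h2
      have h2 := h1 ((μ.ord t).toNat + 1)
      have h3 : ((((μ.ord t).toNat + 1 : ℕ) : ℤ)) * μ.ord f ≤
          (((μ.ord t).toNat + 1 : ℕ) : ℤ) * (-1) :=
        mul_le_mul_of_nonneg_left (by omega) (by positivity)
      push_cast at h2 h3
      omega
    obtain ⟨u, hu, _, _, hu0, _⟩ := exists_nonconst S hν B hB1 hB2 hB3 ρ hρ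
    exact ⟨u, hu, hu0, fun n s _ => htop _⟩

end Pool.Agent.LibKB2
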