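import Pool.Agent.LibKB2.Seq

/-! Basic properties of the saturation. -/

set_option autoImplicit false

namespace Pool.Agent.LibKB2

section

variable {κ : Type} [Field κ] [Algebra ℂ κ]

theorem mulS_mulS (g h : κ) (U : Submodule ℂ κ) : mulS g (mulS h U) = mulS (g * h) U := by
  ext x
  simp only [mem_mulS]
  constructor
  · rintro ⟨_, ⟨y, hy, rfl⟩, rfl⟩
    exact ⟨y, hy, by ring⟩
  · rintro ⟨y, hy, rfl⟩
    exact ⟨_, ⟨y, hy, rfl⟩, by ring⟩

theorem mulS_sup (g : κ) (U U' : Submodule ℂ κ) : mulS g (U ⊔ U') = mulS g U ⊔ mulS g U' :=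
  Submodule.map_sup _ _ _

theorem mulS_Ph (g h₀ h₁ : κ) (U : Submodule ℂ κ) :
    mulS g (Ph h₀ h₁ U) = Ph h₀ h₁ (mulS g U) := by
  unfold Ph
  rw [mulS_sup, mulS_mulS, mulS_mulS, mulS_mulS, mulS_mulS, mul_comm g h₀, mul_comm g h₁]

theorem mulS_Ph_iter (g h₀ h₁ : κ) (U : Submodule ℂ κ) (k : ℕ) :
    mulS g ((Ph h₀ h₁)^[k] U) = (Ph h₀ h₁)^[k] (mulS g U) := by
  induction k with
  | zero => rfl
  | succ k ih => rw [Function.iterate_succ_apply', Function.iterate_succ_apply', mulS_Ph, ih]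

theorem Ph_iter_mono {h₀ h₁ : κ} {U U' : Submodule ℂ κ} (hU : U ≤ U') (k : ℕ) :
    (Ph h₀ h₁)^[k] U ≤ (Ph h₀ h₁)^[k] U' := by
  induction k with
  | zero => exact hU
  | succ k ih =>
    rw [Function.iterate_succ_apply', Function.iterate_succ_apply']
    exact Ph_mono ih

instance finite_Ph_iter (h₀ h₁ : κ) (U : Submodule ℂ κ) [Module.Finite ℂ U] (k : ℕ) :
    Module.Finite ℂ ((Ph h₀ h₁)^[k] U : Submodule ℂ κ) := by
  induction k with
  | zero => simpa
  | succ k ih =>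
    rw [Function.iterate_succ_apply']
    infer_instance

end

variable {κ : Type} [Field κ] [Algebra ℂ κ] {Λ : Type} [AddCommGroup Λ] {X : CurveSys κ Λ}
  {h₀ h₁ : κ}

theorem pow_mem {h : κ} (hh : h ∈ X.V X.A) (n : ℕ) : h ^ n ∈ X.V (n • X.A) := by
  induction n with
  | zero => simpa using X.one
  | succ n ih =>
    rw [pow_succ, succ_nsmul]
    exact X.mul _ _ _ _ ih hh

theorem VV_mul {D E : Λ} {a b : κ} (ha : a ∈ VV X h₀ h₁ D) (hb : b ∈ VV X h₀ h₁ E) :
    a * b ∈ VV X h₀ h₁ (D + E) := by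
  obtain ⟨k, hk⟩ := ha
  obtain ⟨l, hl⟩ := hb
  refine ⟨k + l, fun n hn i hi => ?_⟩
  by_cases h : i ≤ k
  · have h1 := hk k le_rfl i h
    have h2 := hl (n - k) (by omega) 0 (by omega)
    have h3 := X.mul _ _ _ _ h1 h2
    have h4 : D + k • X.A + (E + (n - k) • X.A) = D + E + n • X.A := by
      have h5 : n • X.A = k • X.A + (n - k) • X.A := by
        rw [← add_nsmul]
        congr 1
        omega
      rw [h5]
      abel
    rw [h4] at h3
    have h6 : a * (h₀ ^ i * h₁ ^ (k - i)) * (b * (h₀ ^ 0 * h₁ ^ (n - k - 0))) =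
        a * b * (h₀ ^ i * h₁ ^ (n - i)) := by
      have h7 : n - i = (k - i) + (n - k - 0) := by omega
      rw [h7, pow_add]
      ring
    rw [h6] at h3
    exact h3
  · push Not at h
    have h1 := hk k le_rfl k le_rfl
    have h2 := hl (n - k) (by omega) (i - k) (by omega)
    have h3 := X.mul _ _ _ _ h1 h2
    have h4 : D + k • X.A + (E + (n - k) • X.A) = D + E + n • X.A := by
      have h5 : n • X.A = k • X.A + (n - k) • X.A := by
        rw [← add_nsmul]
        congr 1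
        omega
      rw [h5]
      abel
    rw [h4] at h3
    have h6 : a * (h₀ ^ k * h₁ ^ (k - k)) * (b * (h₀ ^ (i - k) * h₁ ^ (n - k - (i - k)))) =
        a * b * (h₀ ^ i * h₁ ^ (n - i)) := by
      have h7 : n - i = (k - k) + (n - k - (i - k)) := by omega
      have h8 : h₀ ^ i = h₀ ^ k * h₀ ^ (i - k) := by
        rw [← pow_add]
        congr 1
        omega
      rw [h7, pow_add, h8]
      ring
    rw [h6] at h3
    exact h3

theorem le_VV (P : Pencil X h₀ h₁) (D : Λ) : X.V D ≤ VV X h₀ h₁ D := by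
  intro c hc
  refine ⟨0, fun n _ i hi => ?_⟩
  have h1 := X.mul _ _ _ _ hc (X.mul _ _ _ _ (pow_mem P.mem0 i) (pow_mem P.mem1 (n - i)))
  rw [← add_nsmul, Nat.add_sub_cancel' hi] at h1
  exact h1

/-- Saturation. -/
theorem VV_sat {D : Λ} (i j : ℕ) {c : κ} (hc0 : c * h₀ ^ i ∈ VV X h₀ h₁ (D + i • X.A))
    (hc1 : c * h₁ ^ j ∈ VV X h₀ h₁ (D + j • X.A)) : c ∈ VV X h₀ h₁ D := by
  obtain ⟨k, hk⟩ := hc0
  obtain ⟨l, hl⟩ := hc1
  refine ⟨i + j + k + l, fun n hn s hs => ?_⟩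
  by_cases h : i ≤ s
  · have h1 := hk (n - i) (by omega) (s - i) (by omega)
    have h2 : D + i • X.A + (n - i) • X.A = D + n • X.A := by
      rw [add_assoc, ← add_nsmul]
      congr 2
      omega
    have h3 : c * h₀ ^ i * (h₀ ^ (s - i) * h₁ ^ (n - i - (s - i))) =
        c * (h₀ ^ s * h₁ ^ (n - s)) := by
      have h4 : h₀ ^ s = h₀ ^ i * h₀ ^ (s - i) := by
        rw [← pow_add]
        congr 1
        omega
      have h5 : n - i - (s - i) = n - s := by omega
      rw [h4, h5]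
      ring
    rw [h2, h3] at h1
    exact h1
  · push Not at h
    have h1 := hl (n - j) (by omega) s (by omega)
    have h2 : D + j • X.A + (n - j) • X.A = D + n • X.A := by
      rw [add_assoc, ← add_nsmul]
      congr 2
      omega
    have h3 : c * h₁ ^ j * (h₀ ^ s * h₁ ^ (n - j - s)) =
        c * (h₀ ^ s * h₁ ^ (n - s)) := by
      have h4 : h₁ ^ (n - s) = h₁ ^ j * h₁ ^ (n - j - s) := by
        rw [← pow_add]
        congr 1
        omega
      rw [h4]
      ring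
    rw [h2, h3] at h1
    exact h1

theorem VV_sat_one {D : Λ} {c : κ} (hc0 : h₀ * c ∈ VV X h₀ h₁ (D + X.A))
    (hc1 : h₁ * c ∈ VV X h₀ h₁ (D + X.A)) : c ∈ VV X h₀ h₁ D := by
  refine VV_sat 1 1 ?_ ?_
  · rw [pow_one, one_nsmul, mul_comm]
    exact hc0
  · rw [pow_one, one_nsmul, mul_comm]
    exact hc1

theorem Ph_VV_le (P : Pencil X h₀ h₁) {D : Λ} {U : Submodule ℂ κ} (hU : U ≤ VV X h₀ h₁ D) :
    Ph h₀ h₁ U ≤ VV X h₀ h₁ (D + X.A) := by
  rw [Ph_le]
  intro y hy
  constructor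
  · rw [mul_comm]
    exact VV_mul (hU hy) (le_VV P _ P.mem0)
  · rw [mul_comm]
    exact VV_mul (hU hy) (le_VV P _ P.mem1)

theorem Ph_iter_VV_le (P : Pencil X h₀ h₁) {D : Λ} {U : Submodule ℂ κ} (hU : U ≤ VV X h₀ h₁ D)
    (k : ℕ) : (Ph h₀ h₁)^[k] U ≤ VV X h₀ h₁ (D + k • X.A) := by
  induction k with
  | zero => simpa using hU
  | succ k ih =>
    rw [Function.iterate_succ_apply', succ_nsmul, ← add_assoc]
    exact Ph_VV_le P ih

/-- The iterated multiples are spanned by the products with monomials. -/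
theorem Ph_iter_le_of {U U' : Submodule ℂ κ} (k : ℕ)
    (h : ∀ c ∈ U, ∀ i, i ≤ k → c * (h₀ ^ i * h₁ ^ (k - i)) ∈ U') : (Ph h₀ h₁)^[k] U ≤ U' := by
  induction k generalizing U U' with
  | zero =>
    intro c hc
    have h1 := h c hc 0 le_rfl
    simpa using h1
  | succ k ih =>
    rw [Function.iterate_succ_apply]
    refine ih fun c hc i hi => ?_
    rw [Ph] at hc
    obtain ⟨a, ha, b, hb, rfl⟩ := Submodule.mem_sup.1 hc
    rw [mem_mulS] at ha hb
    obtain ⟨a, ha, rfl⟩ := ha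
    obtain ⟨b, hb, rfl⟩ := hb
    rw [add_mul]
    refine Submodule.add_mem _ ?_ ?_
    · have h1 := h a ha (i + 1) (by omega)
      have h2 : a * (h₀ ^ (i + 1) * h₁ ^ (k + 1 - (i + 1))) = h₀ * a * (h₀ ^ i * h₁ ^ (k - i)) := by
        rw [Nat.add_sub_add_right]
        ring
      rw [← h2]
      exact h1
    · have h1 := h b hb i (by omega)
      have h2 : b * (h₀ ^ i * h₁ ^ (k + 1 - i)) = h₁ * b * (h₀ ^ i * h₁ ^ (k - i)) := by
        have h3 : k + 1 - i = k - i + 1 := by omega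
        rw [h3]
        ring
      rw [← h2]
      exact h1

/-- A finite dimensional space in the saturation is multiplied by forms of large degree into the
space of sections. -/
theorem exists_uniform {D : Λ} {U : Submodule ℂ κ} [Module.Finite ℂ U]
    (hU : U ≤ VV X h₀ h₁ D) : ∃ k₀ : ℕ, ∀ k, k₀ ≤ k → (Ph h₀ h₁)^[k] U ≤ X.V (D + k • X.A) := by
  have hfg : U.FG := Module.Finite.iff_fg.1 inferInstance
  obtain ⟨S, rfl⟩ := hfg
  have h1 : ∀ c ∈ S, ∃ k : ℕ, ∀ n, k ≤ n → ∀ i, i ≤ n →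
      c * (h₀ ^ i * h₁ ^ (n - i)) ∈ X.V (D + n • X.A) := fun c hc =>
    hU (Submodule.subset_span hc)
  choose! f hf using h1
  refine ⟨S.sup f, fun k hk => Ph_iter_le_of k fun c hc i hi => ?_⟩
  have h2 : Submodule.span ℂ (S : Set κ) ≤
      (X.V (D + k • X.A)).comap (LinearMap.mulRight ℂ (h₀ ^ i * h₁ ^ (k - i))) := by
    rw [Submodule.span_le]
    intro c hc
    exact hf c hc k ((Finset.le_sup hc).trans hk) i hi
  exact h2 hc

end Pool.Agent.LibKB2
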