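import Pool.Agent.LibKB.Loc
import Pool.Agent.LibKB2.Basic

/-! The intersection form and divisors on `PreSurf`. -/

set_option autoImplicit false

open Pool.Agent.LibGMM Pool.Agent.LibK Pool.Agent.LibKB

namespace Pool.Agent.LibKB2

section

variable {n : ℕ}

theorem frm_comm (u v : Fin (n + 1) → ℤ) : frm u v = frm v u := by
  unfold frm
  rw [mul_comm (u 0)]
  congr 1
  exact Finset.sum_congr rfl fun i _ => mul_comm _ _

theorem frm_add_left (u v w : Fin (n + 1) → ℤ) : frm (u + v) w = frm u w + frm v w := by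
  unfold frm
  simp only [Pi.add_apply, add_mul, Finset.sum_add_distrib]
  ring

theorem frm_sub_left (u v w : Fin (n + 1) → ℤ) : frm (u - v) w = frm u w - frm v w := by
  unfold frm
  simp only [Pi.sub_apply, sub_mul, Finset.sum_sub_distrib]
  ring

theorem frm_add_right (u v w : Fin (n + 1) → ℤ) : frm w (u + v) = frm w u + frm w v := by
  rw [frm_comm, frm_add_left, frm_comm u, frm_comm v]

theorem frm_sub_right (u v w : Fin (n + 1) → ℤ) : frm w (u - v) = frm w u - frm w v := by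
  rw [frm_comm, frm_sub_left, frm_comm u, frm_comm v]

theorem frm_nsmul_left (k : ℕ) (u v : Fin (n + 1) → ℤ) : frm (k • u) v = k * frm u v := by
  unfold frm
  simp only [Pi.smul_apply, nsmul_eq_mul, mul_assoc, ← Finset.mul_sum]
  ring

theorem frm_zero_left (v : Fin (n + 1) → ℤ) : frm 0 v = 0 := by
  unfold frm
  simp

end

section

variable {L : Type} [Field L] [Algebra ℂ L]

open Classical in
/-- The prime divisor `ν` as a divisor. -/
noncomputable def dlt (ν : DVal L) : DVal L → ℤ := fun μ => if μ = ν then 1 else 0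

theorem dlt_self (ν : DVal L) : dlt ν ν = 1 := by
  simp [dlt]

theorem dlt_ne {ν μ : DVal L} (h : μ ≠ ν) : dlt ν μ = 0 := by
  simp [dlt, h]

theorem isDiv_zero (P : Set (DVal L)) : IsDiv P (0 : DVal L → ℤ) := by
  unfold IsDiv
  simp

theorem IsDiv.add' {P : Set (DVal L)} {D E : DVal L → ℤ} (hD : IsDiv P D) (hE : IsDiv P E) :
    IsDiv P (D + E) := by
  refine (Set.Finite.union hD hE).subset ?_
  rintro ν ⟨h1, h2⟩
  by_cases h3 : D ν = 0
  · right
    refine ⟨h1, fun h4 => h2 ?_⟩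
    rw [Pi.add_apply, h3, h4, add_zero]
  · exact Or.inl ⟨h1, h3⟩

theorem IsDiv.neg' {P : Set (DVal L)} {D : DVal L → ℤ} (hD : IsDiv P D) : IsDiv P (-D) := by
  refine Set.Finite.subset hD ?_
  rintro ν ⟨h1, h2⟩
  exact ⟨h1, fun h4 => h2 (by rw [Pi.neg_apply, h4, neg_zero])⟩

theorem IsDiv.sub' {P : Set (DVal L)} {D E : DVal L → ℤ} (hD : IsDiv P D) (hE : IsDiv P E) :
    IsDiv P (D - E) := by
  rw [sub_eq_add_neg]
  exact IsDiv.add' hD (IsDiv.neg' hE)

theorem IsDiv.zsmul' {P : Set (DVal L)} {D : DVal L → ℤ} (hD : IsDiv P D) (k : ℤ) :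
    IsDiv P (k • D) := by
  refine Set.Finite.subset hD ?_
  rintro ν ⟨h1, h2⟩
  exact ⟨h1, fun h4 => h2 (by rw [Pi.smul_apply, h4, smul_zero])⟩

theorem isDiv_dlt (P : Set (DVal L)) (ν : DVal L) : IsDiv P (dlt ν) := by
  refine (Set.finite_singleton ν).subset ?_
  rintro μ ⟨_, h2⟩
  by_contra h3
  exact h2 (dlt_ne h3)

/-- `S.finDiv`. -/
theorem isDiv_ord {P : Set (DVal L)} (h : FinDiv P) {f : L} (hf : f ≠ 0) :
    IsDiv P (fun ν => ν.ord f) := by
  exact h f hf

variable {n : ℕ} (P : Set (DVal L)) (cls : DVal L → Fin (n + 1) → ℤ)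

theorem b01_fin {D : DVal L → ℤ} (hD : IsDiv P D) :
    (P ∩ Function.support fun ν => D ν • cls ν).Finite := by
  refine Set.Finite.subset hD ?_
  rintro ν ⟨h1, h2⟩
  refine ⟨h1, fun h3 => h2 ?_⟩
  show D ν • cls ν = 0
  rw [h3, zero_smul]

/-- HINT for this and the next ones: `finsum_mem_add_distrib'` etc.; the set of `ν ∈ P` with
`D ν • cls ν ≠ 0` is finite. -/
theorem clOf_add {D E : DVal L → ℤ} (hD : IsDiv P D) (hE : IsDiv P E) :
    clOf P cls (D + E) = clOf P cls D + clOf P cls E := by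
  unfold clOf
  rw [← finsum_mem_add_distrib' (b01_fin P cls hD) (b01_fin P cls hE)]
  refine finsum_mem_congr rfl fun ν _ => ?_
  rw [Pi.add_apply, add_smul]

theorem clOf_zsmul {D : DVal L → ℤ} (hD : IsDiv P D) (k : ℤ) :
    clOf P cls (k • D) = k • clOf P cls D := by
  unfold clOf
  have h1 := (zsmulAddGroupHom (α := Fin (n + 1) → ℤ) k).map_finsum_mem' (b01_fin P cls hD)
  simp only [zsmulAddGroupHom_apply] at h1
  rw [h1]
  refine finsum_mem_congr rfl fun ν _ => ?_
  rw [Pi.smul_apply, smul_assoc]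

theorem clOf_sub {D E : DVal L → ℤ} (hD : IsDiv P D) (hE : IsDiv P E) :
    clOf P cls (D - E) = clOf P cls D - clOf P cls E := by
  have h1 : D - E = D + (-1 : ℤ) • E := by
    rw [neg_one_smul, sub_eq_add_neg]
  rw [h1, clOf_add P cls hD (IsDiv.zsmul' hE _), clOf_zsmul P cls hE, neg_one_smul, sub_eq_add_neg]

theorem clOf_zero : clOf P cls (0 : DVal L → ℤ) = 0 := by
  unfold clOf
  rw [finsum_mem_def]
  rw [← finsum_zero (α := DVal L) (M := Fin (n + 1) → ℤ)]
  refine finsum_congr fun ν => ?_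
  simp

theorem clOf_dlt {ν : DVal L} (hν : ν ∈ P) : clOf P cls (dlt ν) = cls ν := by
  unfold clOf
  rw [finsum_mem_def, finsum_eq_single _ ν]
  · rw [Set.indicator_of_mem hν, dlt_self, one_smul]
  · intro μ hμ
    by_cases hP : μ ∈ P
    · rw [Set.indicator_of_mem hP, dlt_ne hμ, zero_smul]
    · rw [Set.indicator_of_notMem hP]

end

end Pool.Agent.LibKB2
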