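import Pool.Agent.LibKB2.B01

/-! Divisors of given class. -/

set_option autoImplicit false

open Pool.Agent.LibGMM Pool.Agent.LibK Pool.Agent.LibKB

namespace Pool.Agent.LibKB2

variable {L : Type} [Field L] [Algebra ℂ L]

/-- PROOF. `S.ex_div` for `D - D'` gives `f ≠ 0` with `ν.ord f = D ν - D' ν` on `S.prm`;
multiplication with `f` is an isomorphism `sec D → sec D'`. -/
theorem h0_congr (S : PreSurf L) {D D' : DVal L → ℤ} (hD : IsDiv S.prm D) (hD' : IsDiv S.prm D')
    (h : clOf S.prm S.cls D = clOf S.prm S.cls D') : h0 S.prm D = h0 S.prm D' := by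
  obtain ⟨f, hf, hfo⟩ := S.ex_div (D - D') (IsDiv.sub' hD hD') (by
    rw [clOf_sub S.prm S.cls hD hD', h, sub_self])
  have hinj : Function.Injective (LinearMap.mulLeft ℂ f) := by
    intro a b hab
    simp only [LinearMap.mulLeft_apply] at hab
    exact mul_left_cancel₀ hf hab
  have hmap : sec S.prm D' = (sec S.prm D).map (LinearMap.mulLeft ℂ f) := by
    ext z
    rw [Submodule.mem_map]
    constructor
    · intro hz
      refine ⟨f⁻¹ * z, ?_, ?_⟩
      · rw [mem_sec]
        intro ν hν hne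
        have hz0 : z ≠ 0 := right_ne_zero_of_mul hne
        have h1 := (mem_sec.1 hz) ν hν hz0
        have h2 : ν.ord (f * (f⁻¹ * z)) = ν.ord f + ν.ord (f⁻¹ * z) := ν.ord_mul _ _ hf hne
        rw [mul_inv_cancel_left₀ hf] at h2
        have h3 := hfo ν hν
        simp only [Pi.sub_apply] at h3
        omega
      · simp [mul_inv_cancel_left₀ hf]
    · rintro ⟨y, hy, rfl⟩
      rw [mem_sec]
      intro ν hν hne
      simp only [LinearMap.mulLeft_apply] at hne ⊢
      have hy0 : y ≠ 0 := right_ne_zero_of_mul hne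
      have h1 := (mem_sec.1 hy) ν hν hy0
      have h2 : ν.ord (f * y) = ν.ord f + ν.ord y := ν.ord_mul _ _ hf hy0
      have h3 := hfo ν hν
      simp only [Pi.sub_apply] at h3
      omega
  unfold h0
  rw [hmap]
  exact (Submodule.equivMapOfInjective _ hinj (sec S.prm D)).finrank_eq

private theorem isDiv_sum {P : Set (DVal L)} {ι : Type} (s : Finset ι) (D : ι → DVal L → ℤ)
    (h : ∀ i, IsDiv P (D i)) : IsDiv P (∑ i ∈ s, D i) := by
  classical
  induction s using Finset.induction_on with
  | empty =>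
    rw [Finset.sum_empty]
    exact isDiv_zero P
  | insert i s his ih =>
    rw [Finset.sum_insert his]
    exact IsDiv.add' (h i) ih

private theorem clOf_sum {n : ℕ} (P : Set (DVal L)) (cls : DVal L → Fin (n + 1) → ℤ) {ι : Type}
    (s : Finset ι) (D : ι → DVal L → ℤ) (h : ∀ i, IsDiv P (D i)) :
    clOf P cls (∑ i ∈ s, D i) = ∑ i ∈ s, clOf P cls (D i) := by
  classical
  induction s using Finset.induction_on with
  | empty =>
    rw [Finset.sum_empty, Finset.sum_empty]
    exact clOf_zero P cls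
  | insert i s his ih =>
    rw [Finset.sum_insert his, Finset.sum_insert his, clOf_add P cls (h i) (isDiv_sum s D h), ih]

/-- PROOF. For `i : Fin (n + 1)` take `D i` of class `Pi.single i 1` (`S.cl_surj`) and `t` with
`ν.ord t = 1` (`ν.exists_ord_one`; `t ≠ 0` by `ord_zero`); `B i = D i - (D i ν) • (μ ↦ μ.ord t)` has
the same class (`S.cl_div`) and `B i ν = 0`. `B α = ∑ i, α i • B i` (an `AddMonoidHom`; for the
additivity `Finset.sum_add_distrib`, `add_smul`). `clOf` of a finite sum: induction. -/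
theorem exists_basis_div (S : PreSurf L) {ν : DVal L} (hν : ν ∈ S.prm) :
    ∃ B : (Fin (S.n + 1) → ℤ) →+ (DVal L → ℤ), (∀ α, IsDiv S.prm (B α)) ∧
      (∀ α, clOf S.prm S.cls (B α) = α) ∧ ∀ α, B α ν = 0 := by
  classical
  obtain ⟨t, ht⟩ := ν.exists_ord_one
  have ht0 : t ≠ 0 := by
    rintro rfl
    rw [ν.ord_zero] at ht
    exact absurd ht (by norm_num)
  have htd : IsDiv S.prm (fun μ => μ.ord t) := isDiv_ord S.finDiv ht0
  choose D hD hDc using fun i : Fin (S.n + 1) => S.cl_surj (Pi.single i 1)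
  let B0 : Fin (S.n + 1) → DVal L → ℤ := fun i => D i - (D i ν) • (fun μ => μ.ord t)
  have hB0 : ∀ i, IsDiv S.prm (B0 i) := fun i => IsDiv.sub' (hD i) (IsDiv.zsmul' htd _)
  have hB0c : ∀ i, clOf S.prm S.cls (B0 i) = Pi.single i 1 := by
    intro i
    show clOf S.prm S.cls (D i - (D i ν) • (fun μ => μ.ord t)) = _
    rw [clOf_sub S.prm S.cls (hD i) (IsDiv.zsmul' htd _), clOf_zsmul S.prm S.cls htd, S.cl_div t ht0,
      smul_zero, sub_zero, hDc]
  have hB0ν : ∀ i, B0 i ν = 0 := by
    intro i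
    show D i ν - (D i ν) • (ν.ord t) = 0
    rw [ht]
    simp
  refine ⟨{ toFun := fun α => ∑ i, α i • B0 i
            map_zero' := by simp
            map_add' := ?_ }, ?_, ?_, ?_⟩
  · intro α β
    rw [← Finset.sum_add_distrib]
    refine Finset.sum_congr rfl fun i _ => ?_
    rw [Pi.add_apply, add_smul]
  · intro α
    exact isDiv_sum Finset.univ (fun i => α i • B0 i) fun i => IsDiv.zsmul' (hB0 i) (α i)
  · intro α
    show clOf S.prm S.cls (∑ i, α i • B0 i) = α
    rw [clOf_sum S.prm S.cls _ _ fun i => IsDiv.zsmul' (hB0 i) _]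
    have h1 : ∀ i, clOf S.prm S.cls (α i • B0 i) = Pi.single i (α i) := by
      intro i
      rw [clOf_zsmul S.prm S.cls (hB0 i), hB0c]
      ext j
      by_cases h : j = i
      · subst h
        simp
      · simp [Pi.single_eq_of_ne h]
    simp_rw [h1]
    exact Finset.univ_sum_single α
  · intro α
    show (∑ i, α i • B0 i) ν = 0
    rw [Finset.sum_apply]
    refine Finset.sum_eq_zero fun i _ => ?_
    rw [Pi.smul_apply, hB0ν, smul_zero]

end Pool.Agent.LibKB2
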