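import Pool.Agent.LibKB2.B02
import Pool.Agent.LibKB2.B03

/-! Riemann-Roch on a curve, asymptotically. -/

set_option autoImplicit false

open Pool.Agent.LibGMM Pool.Agent.LibK Pool.Agent.LibKB

namespace Pool.Agent.LibKB2

variable {L : Type} [Field L] [Algebra ℂ L] {κ : Type} [Field κ] [Algebra ℂ κ]

theorem b04_twice (S : PreSurf L) {ν : DVal L} (hν : ν ∈ S.prm)
    (B : (Fin (S.n + 1) → ℤ) →+ (DVal L → ℤ)) (hB1 : ∀ α, IsDiv S.prm (B α))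
    (hB2 : ∀ α, clOf S.prm S.cls (B α) = α) (hB3 : ∀ α, B α ν = 0) (ρ : ν.ring →ₐ[ℂ] κ)
    (hρ : ∀ x : ν.ring, ρ x = 0 ↔ ((x : L) = 0 ∨ 0 < ν.ord x)) (F : Fin (S.n + 1) → ℤ) :
    ∃ n₀ : ℕ, ∀ n : ℕ, n₀ ≤ n →
      2 * (Module.finrank ℂ (resV S.prm ρ (B (F + n • S.A))) : ℤ) =
        2 * (frm F (S.cls ν) + n * frm S.A (S.cls ν)) - frm (S.cls ν) (S.cls ν) -
          frm (Kc S.n) (S.cls ν) := by
  obtain ⟨k1, hk1⟩ := S.serre F
  obtain ⟨k2, hk2⟩ := S.serre (F - S.cls ν)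
  refine ⟨max k1 k2, fun n hn => ?_⟩
  have hD := hB1 (F + n • S.A)
  have hcl := hB2 (F + n • S.A)
  have hD2 : IsDiv S.prm (B (F + n • S.A) - dlt ν) := IsDiv.sub' hD (isDiv_dlt S.prm ν)
  have hcl2 : clOf S.prm S.cls (B (F + n • S.A) - dlt ν) = F + n • S.A - S.cls ν := by
    rw [clOf_sub S.prm S.cls hD (isDiv_dlt S.prm ν), hcl, clOf_dlt S.prm S.cls hν]
  have h1 := (hk1 n ((le_max_left _ _).trans hn) _ hD (by rw [hcl]; exact add_comm F _)).1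
  have h2 := (hk2 n ((le_max_right _ _).trans hn) _ hD2 (by rw [hcl2]; abel)).1
  rw [hcl] at h1
  rw [hcl2] at h2
  have := S.finSec _ hD
  have h3 := (finrank_resV hν hρ (hB3 (F + n • S.A))).2
  have e1 : frm (F + n • S.A) (S.cls ν) = frm F (S.cls ν) + n * frm S.A (S.cls ν) := by
    rw [frm_add_left, frm_nsmul_left]
  rw [← e1, h3]
  obtain ⟨α, hα⟩ : ∃ α, α = F + n • S.A := ⟨_, rfl⟩
  rw [← hα] at h1 h2 ⊢
  simp only [frm_sub_left, frm_sub_right] at h1 h2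
  have e2 := frm_comm (S.cls ν) α
  have e3 := frm_comm (S.cls ν) (Kc S.n)
  linarith

/-- PROOF. `c = S.cls ν`. For given `F` let `n` be larger than the bounds of `S.serre F` and
`S.serre (F - c)`; `D = B (F + n • S.A)` has class `α = n • S.A + F`, `D - dlt ν` has class
`n • S.A + (F - c)` (`clOf_sub`, `clOf_dlt`). By `finrank_resV` and the two formulas
`2 * finrank = frm α (α - K) - frm (α - c) (α - c - K) = 2 frm α c - frm c c - frm K c`. With `F = 0`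
this shows that `frm c c + frm K c` is even, which gives `p`. -/
theorem exists_asym (S : PreSurf L) {ν : DVal L} (hν : ν ∈ S.prm)
    (B : (Fin (S.n + 1) → ℤ) →+ (DVal L → ℤ)) (hB1 : ∀ α, IsDiv S.prm (B α))
    (hB2 : ∀ α, clOf S.prm S.cls (B α) = α) (hB3 : ∀ α, B α ν = 0) (ρ : ν.ring →ₐ[ℂ] κ)
    (hρ : ∀ x : ν.ring, ρ x = 0 ↔ ((x : L) = 0 ∨ 0 < ν.ord x)) :
    ∃ p : ℤ, 2 * p = 2 + frm (S.cls ν) (S.cls ν) + frm (Kc S.n) (S.cls ν) ∧
      ∀ F, ∃ n₀ : ℕ, ∀ n : ℕ, n₀ ≤ n →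
        (Module.finrank ℂ (resV S.prm ρ (B (F + n • S.A))) : ℤ) =
          frm F (S.cls ν) + n * frm S.A (S.cls ν) + 1 - p := by
  obtain ⟨m, hm⟩ := b04_twice S hν B hB1 hB2 hB3 ρ hρ 0
  have h0 := hm m le_rfl
  rw [frm_zero_left] at h0
  refine ⟨1 + m * frm S.A (S.cls ν) -
    (Module.finrank ℂ (resV S.prm ρ (B (0 + m • S.A))) : ℤ), by linarith, fun F => ?_⟩
  obtain ⟨n₀, hn₀⟩ := b04_twice S hν B hB1 hB2 hB3 ρ hρ F
  refine ⟨n₀, fun n hn => ?_⟩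
  have h1 := hn₀ n hn
  linarith

end Pool.Agent.LibKB2
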