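import Pool.Agent.LibKB2.B04
import Pool.Agent.LibGMM.CanRes

/-! The degree of a curve is positive. -/

set_option autoImplicit false

open Pool.Agent.LibGMM Pool.Agent.LibK Pool.Agent.LibKB

namespace Pool.Agent.LibKB2

variable {L : Type} [Field L] [Algebra ℂ L] {κ : Type} [Field κ] [Algebra ℂ κ]

/-- PROOF. `z = ev f / ev g`, `g(0) ≠ 0` (`h.mem`). If `f(0) ≠ 0` then `z⁻¹ = ev g / ev f ∈ x`. So
`f(0) = 0` and `(z - lam)⁻¹ = ev g / ev (f - C lam * g)` with constant coefficient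
`- lam * g(0) ≠ 0`. -/
theorem inv_sub_mem {x : Subalgebra ℂ L} {a b : L} (h : Coord x a b) {z : L} (hz : z ∈ x)
    (hz' : z⁻¹ ∉ x) {lam : ℂ} (hl : lam ≠ 0) :
    (z - algebraMap ℂ L lam)⁻¹ ∈ x ∧ z - algebraMap ℂ L lam ≠ 0 := by
  obtain ⟨f, g, hg, hzfg⟩ := (h.mem z).1 hz
  have hf : MvPolynomial.constantCoeff f = 0 := by
    by_contra hcon
    apply hz'
    rw [h.mem]
    exact ⟨g, f, hcon, by rw [hzfg, inv_div]⟩
  have hg0 : ev a b g ≠ 0 := by
    intro h0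
    rw [h.inj g h0, map_zero] at hg
    exact hg rfl
  have hk : MvPolynomial.constantCoeff (f - MvPolynomial.C lam * g) ≠ 0 := by
    rw [map_sub, map_mul, hf, MvPolynomial.constantCoeff_C, zero_sub]
    exact neg_ne_zero.2 (mul_ne_zero hl hg)
  have hk0 : ev a b (f - MvPolynomial.C lam * g) ≠ 0 := by
    intro h0
    rw [h.inj _ h0, map_zero] at hk
    exact hk rfl
  have he : z - algebraMap ℂ L lam = ev a b (f - MvPolynomial.C lam * g) / ev a b g := by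
    rw [map_sub, map_mul, MvPolynomial.aeval_C, hzfg]
    field_simp
  refine ⟨?_, ?_⟩
  · rw [h.mem]
    exact ⟨g, _, hk, by rw [he, inv_div]⟩
  · rw [he]
    exact div_ne_zero hk0 hg0

/-- PROOF. `S.infPts ν hν` gives two points `x ≠ y` on `ν`. `S.sep (B S.A)` gives `f` with
`Gen y f`, `¬ Gen x f`, and `f'` with `Gen x f'`. `ν.ord f = ν.ord f' = 0` (`Gen`, `hB3`), so
`u = ρ f ≠ 0`, `v = ρ f' ≠ 0`. Suppose `u / v = lam` is a constant (`≠ 0`). `z = f / f'` lies in `x`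
(`Coord.mem_iff`, `S.ess`: `μ.ord z = μ.ord f + B S.A μ ≥ 0`), `z⁻¹ ∉ x` (otherwise
`μ.ord f + B S.A μ = 0` for all `μ` through `x`, i.e. `Gen x f`). So `z - lam` is a unit of `x`
(`inv_sub_mem`), hence of `ν.ring` (`x ≤ ν.ring`), but `ρ (z - lam) = u / v - lam = 0`. -/
theorem exists_nonconst (S : PreSurf L) {ν : DVal L} (hν : ν ∈ S.prm)
    (B : (Fin (S.n + 1) → ℤ) →+ (DVal L → ℤ)) (hB1 : ∀ α, IsDiv S.prm (B α))
    (hB2 : ∀ α, clOf S.prm S.cls (B α) = α) (hB3 : ∀ α, B α ν = 0) (ρ : ν.ring →ₐ[ℂ] κ)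
    (hρ : ∀ x : ν.ring, ρ x = 0 ↔ ((x : L) = 0 ∨ 0 < ν.ord x)) :
    ∃ u ∈ resV S.prm ρ (B S.A), ∃ v ∈ resV S.prm ρ (B S.A), u ≠ 0 ∧ v ≠ 0 ∧
      u / v ∉ Set.range (algebraMap ℂ κ) := by
  obtain ⟨x, hx, y, hy, hxy⟩ := (S.infPts ν hν).nontrivial
  obtain ⟨f, hf, hfx⟩ := S.sep (B S.A) (hB1 S.A) (hB2 S.A) x hx.1 y hy.1 hxy
  obtain ⟨f', hf', -⟩ := S.sep (B S.A) (hB1 S.A) (hB2 S.A) y hy.1 x hx.1 hxy.symm
  have h1 : ν.ord f = 0 := by
    have h2 := hf.2.2 ν hν hy.2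
    rw [hB3, add_zero] at h2
    exact h2
  have h1' : ν.ord f' = 0 := by
    have h2 := hf'.2.2 ν hν hx.2
    rw [hB3, add_zero] at h2
    exact h2
  have hfr : f ∈ ν.ring := mem_ring_of_mem_sec hν (hB3 S.A) hf.1
  have hfr' : f' ∈ ν.ring := mem_ring_of_mem_sec hν (hB3 S.A) hf'.1
  have hu : ρ ⟨f, hfr⟩ ≠ 0 := by
    intro h0
    rcases (hρ _).1 h0 with h2 | h2
    · exact hf.2.1 h2
    · change 0 < ν.ord f at h2
      omega
  have hv : ρ ⟨f', hfr'⟩ ≠ 0 := by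
    intro h0
    rcases (hρ _).1 h0 with h2 | h2
    · exact hf'.2.1 h2
    · change 0 < ν.ord f' at h2
      omega
  refine ⟨_, mem_resV.2 ⟨⟨f, hfr⟩, hf.1, rfl⟩, _, mem_resV.2 ⟨⟨f', hfr'⟩, hf'.1, rfl⟩, hu, hv, ?_⟩
  rintro ⟨lam, hlam⟩
  have hl : lam ≠ 0 := by
    rintro rfl
    rw [map_zero] at hlam
    exact div_ne_zero hu hv hlam.symm
  obtain ⟨a, b, hab⟩ := S.coord x hx.1
  have hz0 : f / f' ≠ 0 := div_ne_zero hf.2.1 hf'.2.1
  have hzord : ∀ μ ∈ S.prm, x ≤ μ.ring → μ.ord (f / f') = μ.ord f + B S.A μ := by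
    intro μ hμ hxμ
    have h2 := hf'.2.2 μ hμ hxμ
    have h3 : μ.ord (f / f') + μ.ord f' = μ.ord f := by
      rw [← μ.ord_mul _ _ hz0 hf'.2.1, div_mul_cancel₀ _ hf'.2.1]
    omega
  have hz : f / f' ∈ x := by
    rw [hab.mem_iff]
    intro μ hμ
    rw [S.ess x hx.1] at hμ
    rw [hzord μ hμ.1 hμ.2]
    exact hf.1 μ hμ.1 hf.2.1
  have hz' : (f / f')⁻¹ ∉ x := by
    intro hcon
    apply hfx
    refine ⟨hf.1, hf.2.1, fun μ hμ hxμ => ?_⟩
    have h2 : 0 ≤ μ.ord (f / f')⁻¹ := hxμ hcon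
    have h3 : μ.ord (f / f')⁻¹ + μ.ord (f / f') = 0 := by
      rw [← μ.ord_mul _ _ (inv_ne_zero hz0) hz0, inv_mul_cancel₀ hz0]
      have h4 := μ.ord_const 1
      rw [map_one] at h4
      exact h4
    have h4 := hzord μ hμ hxμ
    have h5 := hf.1 μ hμ hf.2.1
    omega
  obtain ⟨h5, h6⟩ := inv_sub_mem hab hz hz' hl
  have h7 : 0 ≤ ν.ord (f / f' - algebraMap ℂ L lam)⁻¹ := hx.2 h5
  have h8 : ν.ord (f / f' - algebraMap ℂ L lam)⁻¹ + ν.ord (f / f' - algebraMap ℂ L lam) = 0 := by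
    rw [← ν.ord_mul _ _ (inv_ne_zero h6) h6, inv_mul_cancel₀ h6]
    have h4 := ν.ord_const 1
    rw [map_one] at h4
    exact h4
  have hzr : f / f' ∈ ν.ring := hx.2 hz
  have h9 : ρ ⟨f / f', hzr⟩ * ρ ⟨f', hfr'⟩ = ρ ⟨f, hfr⟩ := by
    rw [← map_mul]
    congr 1
    exact Subtype.ext (div_mul_cancel₀ _ hf'.2.1)
  have h10 : ρ (⟨f / f', hzr⟩ - algebraMap ℂ ν.ring lam) = 0 := by
    rw [map_sub, AlgHom.commutes, hlam, ← h9, mul_div_cancel_right₀ _ hv, sub_self]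
  rcases (hρ _).1 h10 with h11 | h11
  · exact h6 h11
  · change 0 < ν.ord (f / f' - algebraMap ℂ L lam) at h11
    omega

theorem b05_transc {t : κ} (ht : t ∉ Set.range (algebraMap ℂ κ)) : Transcendental ℂ t := by
  intro hal
  apply ht
  have h1 : IsIntegral ℂ t := hal.isIntegral
  exact minpoly.mem_range_of_degree_eq_one ℂ t
    (IsAlgClosed.degree_eq_one_of_irreducible ℂ (minpoly.irreducible h1))

theorem b05_indep {u v : κ} (hv : v ≠ 0) (h : u / v ∉ Set.range (algebraMap ℂ κ)) (n : ℕ) :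
    LinearIndependent ℂ (fun i : Fin (n + 1) => u ^ (i : ℕ) * v ^ (n - i)) := by
  rw [Fintype.linearIndependent_iff]
  intro c hc i
  obtain ⟨P, hP⟩ : ∃ P : Polynomial ℂ, P = ∑ j : Fin (n + 1),
      Polynomial.C (c j) * Polynomial.X ^ (j : ℕ) := ⟨_, rfl⟩
  have h1 : v ^ n * Polynomial.aeval (u / v) P = 0 := by
    rw [← hc, hP, map_sum, Finset.mul_sum]
    refine Finset.sum_congr rfl fun j _ => ?_
    rw [map_mul, Polynomial.aeval_C, map_pow, Polynomial.aeval_X, Algebra.smul_def]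
    have h2 : v ^ n = v ^ (j : ℕ) * v ^ (n - j) := by
      rw [← pow_add, Nat.add_sub_cancel' (Nat.lt_succ_iff.1 j.2)]
    have h3 : v ^ (j : ℕ) ≠ 0 := pow_ne_zero _ hv
    rw [h2, div_pow]
    field_simp
  have h2 : Polynomial.aeval (u / v) P = 0 :=
    (mul_eq_zero.1 h1).resolve_left (pow_ne_zero n hv)
  have h3 : P = 0 := (transcendental_iff.1 (b05_transc h)) P h2
  have h4 : P.coeff i = c i := by
    rw [hP, Polynomial.finsetSum_coeff, Finset.sum_eq_single i]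
    · simp
    · intro j _ hj
      rw [Polynomial.coeff_C_mul, Polynomial.coeff_X_pow, if_neg, mul_zero]
      intro hij
      exact hj (Fin.ext hij.symm)
    · intro hcon
      exact absurd (Finset.mem_univ i) hcon
  rw [← h4, h3, Polynomial.coeff_zero]

theorem b05_pow {P : Set (DVal L)} {ν : DVal L} {ρ : ν.ring →ₐ[ℂ] κ} {Λ : Type} [AddCommGroup Λ]
    (B : Λ →+ (DVal L → ℤ)) {A : Λ} {u : κ} (hu : u ∈ resV P ρ (B A)) (i : ℕ) :
    u ^ i ∈ resV P ρ (B (i • A)) := by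
  induction i with
  | zero =>
    rw [pow_zero, zero_nsmul, map_zero]
    exact one_mem_resV
  | succ i ih =>
    rw [pow_succ, succ_nsmul, map_add]
    exact resV_mul ih hu

/-- PROOF. `exists_basis_div`, `DVal.exists_residue`, `u, v` from `exists_nonconst`, `t = u / v` is
transcendental (`ℂ` is algebraically closed), so `v ^ n * t ^ i = u ^ i * v ^ (n - i)`,
`i = 0, ..., n`, are linearly independent elements of `resV S.prm ρ (B (n • S.A))` (`resV_mul`), so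
its dimension is at least `n + 1` (finite dimensional by `finrank_resV`, `S.finSec`). Compare with
`exists_asym` (`F = 0`) for `n → ∞`. -/
theorem A_pos (S : PreSurf L) {ν : DVal L} (hν : ν ∈ S.prm) : 1 ≤ frm S.A (S.cls ν) := by
  obtain ⟨B, hB1, hB2, hB3⟩ := exists_basis_div S hν
  obtain ⟨κ, _, _, ρ, -, hρ⟩ := ν.exists_residue
  obtain ⟨u, hu, v, hv, hu0, hv0, huv⟩ := exists_nonconst S hν B hB1 hB2 hB3 ρ hρ
  obtain ⟨p, -, hp⟩ := exists_asym S hν B hB1 hB2 hB3 ρ hρ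
  obtain ⟨n₀, hn₀⟩ := hp 0
  by_contra hcon
  obtain ⟨n, hn1, hn2⟩ : ∃ n : ℕ, n₀ ≤ n ∧ -p < n :=
    ⟨max n₀ (1 + p.natAbs), le_max_left _ _, by
      have h1 : ((1 + p.natAbs : ℕ) : ℤ) ≤ ((max n₀ (1 + p.natAbs) : ℕ) : ℤ) := by
        exact_mod_cast le_max_right _ _
      push_cast at h1
      omega⟩
  have h1 := hn₀ n hn1
  have hfs := S.finSec _ (hB1 (0 + n • S.A))
  have hfin := (finrank_resV hν hρ (hB3 (0 + n • S.A))).1
  have hw : ∀ i : Fin (n + 1), u ^ (i : ℕ) * v ^ (n - i) ∈ resV S.prm ρ (B (0 + n • S.A)) := by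
    intro i
    have h2 := resV_mul (b05_pow B hu i) (b05_pow B hv (n - i))
    rw [← map_add, ← add_nsmul, Nat.add_sub_cancel' (Nat.lt_succ_iff.1 i.2)] at h2
    rw [zero_add]
    exact h2
  have hli : LinearIndependent ℂ
      (fun i : Fin (n + 1) => (⟨_, hw i⟩ : resV S.prm ρ (B (0 + n • S.A)))) := by
    have h3 := b05_indep hv0 huv n
    rw [← LinearMap.linearIndependent_iff (resV S.prm ρ (B (0 + n • S.A))).subtype
      (Submodule.ker_subtype _)]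
    exact h3
  have h4 := hli.fintype_card_le_finrank
  rw [Fintype.card_fin] at h4
  have h5 : ((n + 1 : ℕ) : ℤ) ≤
      (Module.finrank ℂ (resV S.prm ρ (B (0 + n • S.A))) : ℤ) := by exact_mod_cast h4
  rw [h1, frm_zero_left] at h5
  have h6 : (n : ℤ) * frm S.A (S.cls ν) ≤ 0 :=
    mul_nonpos_of_nonneg_of_nonpos (Int.natCast_nonneg n) (by omega)
  push_cast at h5
  omega

end Pool.Agent.LibKB2
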