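import Pool.Agent.LibKB2.Defs

/-! Concave sequences of integers. -/

set_option autoImplicit false

namespace Pool.Agent.LibKB2

/-- A concave sequence which is bounded below is nondecreasing. -/
theorem seq_mono (u : ℕ → ℤ) (hc : ∀ k, u (k + 2) + u k ≤ 2 * u (k + 1)) (C : ℤ)
    (hb : ∀ k, C ≤ u k) (k : ℕ) : u k ≤ u (k + 1) := by
  by_contra h
  push Not at h
  have h1 : ∀ j : ℕ, u (k + j + 1) ≤ u (k + j) - 1 := by
    intro j
    induction j with
    | zero => simp only [add_zero]; omega
    | succ j ih =>
      have h2 := hc (k + j)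
      have h3 : k + (j + 1) + 1 = k + j + 2 := by ring
      have h4 : k + (j + 1) = k + j + 1 := by ring
      rw [h3, h4]
      omega
  have h2 : ∀ j : ℕ, u (k + j) ≤ u k - j := by
    intro j
    induction j with
    | zero => simp
    | succ j ih =>
      have h3 := h1 j
      have h4 : k + (j + 1) = k + j + 1 := by ring
      rw [h4]
      push_cast
      omega
  have h3 := h2 (u k - C + 1).toNat
  have h4 := hb (k + (u k - C + 1).toNat)
  have h5 := Int.self_le_toNat (u k - C + 1)
  omega

theorem seq_le (u : ℕ → ℤ) (hc : ∀ k, u (k + 2) + u k ≤ 2 * u (k + 1)) (C : ℤ)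
    (hb : ∀ k, C ≤ u k) (k : ℕ) : u 0 ≤ u k := by
  induction k with
  | zero => exact le_rfl
  | succ k ih => exact ih.trans (seq_mono u hc C hb k)

/-- A concave sequence which grows with slope `a` has all slopes at least `a`. -/
theorem seq_growth (u : ℕ → ℤ) (hc : ∀ k, u (k + 2) + u k ≤ 2 * u (k + 1)) (a C : ℤ)
    (hb : ∀ k : ℕ, a * k + C ≤ u k) (k : ℕ) : u 0 + a * k ≤ u k := by
  have h1 := seq_le (fun k => u k - a * k) (fun k => ?_) C (fun k => ?_) k
  · simp only [Nat.cast_zero, mul_zero, sub_zero] at h1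
    linarith
  · have h2 := hc k
    push_cast
    linarith
  · have h2 := hb k
    linarith

end Pool.Agent.LibKB2
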